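import Mathlib

namespace Pool.Agent.X86.GR

open Function

theorem levitzki {A M : Type*} [Ring A] [AddCommGroup M] [Module A M] [IsArtinian A M]
    [IsNoetherian A M] (S : Set (Module.End A M)) (hmul : ∀ s ∈ S, ∀ t ∈ S, s * t ∈ S)
    (hnil : ∀ s ∈ S, IsNilpotent s) : ∃ L : ℕ, (Submodule.span ℤ S) ^ L = ⊥ := by
  classical
  set T := Submodule.span ℤ S with hT
  let good : Submodule A M → Prop := fun W =>
    (∀ s ∈ S, W.map s ≤ W) ∧ ∃ L : ℕ, ∀ y ∈ T ^ L, W.map y ≤ ⊥
  have hbot : good ⊥ := ⟨fun s _ => by simp, 0, fun y _ => by simp⟩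
  obtain ⟨W, hW, hWmax⟩ := WellFounded.has_min (wellFounded_gt (α := Submodule A M))
    {W | good W} ⟨⊥, hbot⟩
  obtain ⟨hWS, L, hL⟩ := hW
  -- spans
  have hspan : ∀ (V U : Submodule A M), (∀ s ∈ S, V.map s ≤ U) → ∀ y ∈ T, V.map y ≤ U := by
    intro V U h y hy
    induction hy using Submodule.span_induction with
    | mem x hx => exact h x hx
    | zero => simp
    | add x y _ _ hx hy =>
      rw [Submodule.map_le_iff_le_comap] at *
      intro v hv
      exact U.add_mem (hx hv) (hy hv)
    | smul a x _ hx =>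
      rw [Submodule.map_le_iff_le_comap] at *
      intro v hv
      exact (U.toAddSubgroup.zsmul_mem (hx hv) a)
  by_cases hWtop : W = ⊤
  · refine ⟨L, ?_⟩
    rw [eq_bot_iff]
    intro y hy
    rw [Submodule.mem_bot]
    ext m
    have := hL y hy
    rw [Submodule.map_le_iff_le_comap] at this
    exact this (hWtop ▸ Submodule.mem_top : m ∈ W)
  · exfalso
    obtain ⟨V, ⟨hVS, hWV⟩, hVmin⟩ := WellFounded.has_min (wellFounded_lt (α := Submodule A M))
      {V | (∀ s ∈ S, V.map s ≤ V) ∧ W < V} ⟨⊤, fun _ _ => le_top, lt_top_iff_ne_top.2 hWtop⟩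
    have hne : ∃ s ∈ S, ¬ V.map s ≤ W := by
      by_contra hcon
      push Not at hcon
      refine hWmax V ⟨hVS, L + 1, ?_⟩ hWV
      intro y hy
      rw [pow_succ] at hy
      induction hy using Submodule.mul_induction_on' with
      | mem_mul_mem a ha b hb =>
        rw [Module.End.mul_eq_comp, Submodule.map_comp]
        exact (Submodule.map_mono (hspan V W hcon b hb)).trans (hL a ha)
      | add x _ y _ hx hy =>
        rw [Submodule.map_le_iff_le_comap] at *
        intro v hv
        exact (⊥ : Submodule A M).add_mem (hx hv) (hy hv)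
    obtain ⟨U, ⟨s, hs, hsV, rfl⟩, hUmin⟩ := WellFounded.has_min
      (wellFounded_lt (α := Submodule A M)) {U | ∃ s ∈ S, ¬ V.map s ≤ W ∧ V.map s ⊔ W = U}
      (by obtain ⟨s, hs, h⟩ := hne; exact ⟨_, s, hs, h, rfl⟩)
    -- general minimality
    have hmin : ∀ r ∈ S, V.map (r * s) ⊔ W ≤ V.map s ⊔ W → V.map (r * s) ≤ W := by
      intro r hr hle
      by_contra hcon
      have heq : V.map (r * s) ⊔ W = V.map s ⊔ W := by
        by_contra hne'
        exact hUmin _ ⟨r * s, hmul r hr s hs, hcon, rfl⟩ (lt_of_le_of_ne hle hne')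
      have hpow : ∀ k : ℕ, (V.map s ⊔ W).map (r ^ k) ⊔ W = V.map s ⊔ W := by
        intro k
        induction k with
        | zero =>
          rw [pow_zero, Module.End.one_eq_id, Submodule.map_id, sup_assoc, sup_idem]
        | succ k ih =>
          rw [pow_succ', Module.End.mul_eq_comp, Submodule.map_comp]
          have h1 : ((V.map s ⊔ W).map (r ^ k)).map r ⊔ W
              = ((V.map s ⊔ W).map (r ^ k) ⊔ W).map r ⊔ W := by
            rw [Submodule.map_sup (((V.map s ⊔ W).map (r ^ k))) W r, sup_assoc,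
              sup_eq_right.2 (hWS r hr)]
          rw [h1, ih, Submodule.map_sup, sup_assoc, sup_eq_right.2 (hWS r hr), ← heq,
            Module.End.mul_eq_comp, Submodule.map_comp]
      obtain ⟨k, hk⟩ := hnil r hr
      have := hpow k
      rw [hk, Submodule.map_zero, bot_sup_eq] at this
      exact hsV (this ▸ le_sup_left)
    have hss : V.map (s * s) ≤ W := by
      apply hmin s hs
      refine sup_le_sup_right ?_ _
      rw [Module.End.mul_eq_comp, Submodule.map_comp]
      exact Submodule.map_mono (hVS s hs)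
    have hsts : ∀ t ∈ S, V.map (s * t * s) ≤ W := by
      intro t ht
      apply hmin (s * t) (hmul s hs t ht)
      refine sup_le_sup_right ?_ _
      rw [mul_assoc, Module.End.mul_eq_comp, Submodule.map_comp]
      exact Submodule.map_mono (hVS _ (hmul t ht s hs))
    let V₁ : Submodule A M := W ⊔ V.map s ⊔ ⨆ t ∈ S, V.map (t * s)
    have hV₁S : ∀ t ∈ S, V₁.map t ≤ V₁ := by
      intro t ht
      simp only [V₁, Submodule.map_sup, Submodule.map_iSup]
      refine sup_le (sup_le ?_ ?_) (iSup₂_le ?_)
      · exact (hWS t ht).trans (le_sup_left.trans le_sup_left)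
      · rw [← Submodule.map_comp, ← Module.End.mul_eq_comp]
        exact le_sup_of_le_right (le_iSup₂_of_le t ht le_rfl)
      · intro t' ht'
        rw [← Submodule.map_comp, ← Module.End.mul_eq_comp, ← mul_assoc]
        exact le_sup_of_le_right (le_iSup₂_of_le (t * t') (hmul t ht t' ht') le_rfl)
    have hWV₁ : W < V₁ := by
      refine lt_of_le_of_ne (le_sup_left.trans le_sup_left) ?_
      intro h
      exact hsV (h ▸ (le_sup_right.trans le_sup_left))
    have hV₁V : V₁ ≤ V := by
      refine sup_le (sup_le hWV.le (hVS s hs)) (iSup₂_le ?_)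
      intro t ht
      exact hVS _ (hmul t ht s hs)
    have hV₁eq : V₁ = V := by
      by_contra h
      exact hVmin V₁ ⟨hV₁S, hWV₁⟩ (lt_of_le_of_ne hV₁V h)
    apply hsV
    rw [← hV₁eq]
    simp only [V₁, Submodule.map_sup, Submodule.map_iSup]
    refine sup_le (sup_le (hWS s hs) ?_) (iSup₂_le ?_)
    · rw [← Submodule.map_comp, ← Module.End.mul_eq_comp]; exact hss
    · intro t ht
      rw [← Submodule.map_comp, ← Module.End.mul_eq_comp, ← mul_assoc]; exact hsts t ht

/-- `Pw S n` is the additive group generated by the products `s₁ ⋯ sₙ e`, with `sᵢ ∈ S`. -/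
def Pw {E : Type*} [Ring E] (S : Set E) : ℕ → AddSubgroup E
  | 0 => ⊤
  | n + 1 => AddSubgroup.closure {x | ∃ s ∈ S, ∃ y ∈ Pw S n, x = s * y}

theorem levitzki_pw {A M : Type*} [Ring A] [AddCommGroup M] [Module A M] [IsArtinian A M]
    [IsNoetherian A M] (S : Set (Module.End A M)) (hmul : ∀ s ∈ S, ∀ t ∈ S, s * t ∈ S)
    (hnil : ∀ s ∈ S, IsNilpotent s) : ∃ L : ℕ, ∀ x ∈ Pw S L, x = 0 := by
  obtain ⟨L, hL⟩ := levitzki S hmul hnil
  have key : ∀ n k : ℕ, n + k = L → ∀ x ∈ Pw S n, ∀ y ∈ (Submodule.span ℤ S) ^ k, y * x = 0 := by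
    intro n
    induction n with
    | zero =>
      intro k hk x _ y hy
      obtain rfl : k = L := by omega
      rw [hL, Submodule.mem_bot] at hy
      rw [hy, zero_mul]
    | succ n ih =>
      intro k hk x hx y hy
      induction hx using AddSubgroup.closure_induction with
      | mem x hx =>
        obtain ⟨s, hs, z, hz, rfl⟩ := hx
        rw [← mul_assoc]
        refine ih (k + 1) (by omega) z hz _ ?_
        rw [pow_succ]
        exact Submodule.mul_mem_mul hy (Submodule.subset_span hs)
      | zero => rw [mul_zero]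
      | add a b _ _ ha hb => rw [mul_add, ha, hb, add_zero]
      | neg a _ ha => rw [mul_neg, ha, neg_zero]
  refine ⟨L, fun x hx => ?_⟩
  have := key L 0 rfl x hx 1 (by rw [pow_zero]; exact Submodule.one_le.1 le_rfl)
  rwa [one_mul] at this

theorem levitzki_closure {A M : Type*} [Ring A] [AddCommGroup M] [Module A M] [IsArtinian A M]
    [IsNoetherian A M] (S : Set (Module.End A M)) (hmul : ∀ s ∈ S, ∀ t ∈ S, s * t ∈ S)
    (hnil : ∀ s ∈ S, IsNilpotent s) (y : Module.End A M) (hy : y ∈ AddSubgroup.closure S) :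
    IsNilpotent y := by
  obtain ⟨L, hL⟩ := levitzki S hmul hnil
  have hy' : y ∈ Submodule.span ℤ S := by
    induction hy using AddSubgroup.closure_induction with
    | mem x hx => exact Submodule.subset_span hx
    | zero => exact Submodule.zero_mem _
    | add a b _ _ ha hb => exact Submodule.add_mem _ ha hb
    | neg a _ ha => exact Submodule.neg_mem _ ha
  refine ⟨L, ?_⟩
  have := Submodule.pow_mem_pow (Submodule.span ℤ S) hy' L
  rwa [hL, Submodule.mem_bot] at this

end Pool.Agent.X86.GR
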