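import Mathlib

namespace Pool.Agent.X86.GR

open Function

/-- A ℤ-grading of an additive group, given by its projections. -/
structure GGrp (M : Type*) [AddCommGroup M] where
  π : ℤ → M →+ M
  fin : ∀ m, (support fun i => π i m).Finite
  sum : ∀ m, ∑ᶠ i, π i m = m
  orth : ∀ i j m, π i (π j m) = if i = j then π j m else 0

namespace GGrp
variable {M : Type*} [AddCommGroup M] (G : GGrp M)

theorem self (i : ℤ) (m : M) : G.π i (G.π i m) = G.π i m := by rw [G.orth, if_pos rfl]

theorem ne {i j : ℤ} (h : i ≠ j) (m : M) : G.π i (G.π j m) = 0 := by rw [G.orth, if_neg h]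

theorem of_self {j : ℤ} {m : M} (hm : G.π j m = m) (i : ℤ) : G.π i m = if i = j then m else 0 := by
  rw [← hm, G.orth]

theorem ext' {x y : M} (h : ∀ i, G.π i x = G.π i y) : x = y := by
  rw [← G.sum x, ← G.sum y]; exact finsum_congr h

theorem ind {P : M → Prop} (h0 : P 0) (hadd : ∀ x y, P x → P y → P (x + y))
    (hh : ∀ i x, G.π i x = x → P x) (m : M) : P m := by
  rw [← G.sum m, finsum_eq_sum _ (G.fin m)]
  generalize (G.fin m).toFinset = s
  induction s using Finset.induction_on with
  | empty => simpa using h0
  | insert a s ha ih =>
    rw [Finset.sum_insert ha]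
    exact hadd _ _ (hh a _ (G.self a m)) ih

theorem exists_zero (m : M) (φ : ℕ → ℤ) (hφ : Injective φ) : ∃ k, G.π (φ k) m = 0 := by
  by_contra hcon
  push Not at hcon
  have : (Set.range φ).Infinite := Set.infinite_range_of_injective hφ
  exact this ((G.fin m).subset (by rintro _ ⟨k, rfl⟩; exact hcon k))

end GGrp

theorem nilp_of_loc {A M : Type*} [Ring A] [AddCommGroup M] [Module A M]
    [IsNoetherian A M] (f : Module.End A M) (h : ∀ m : M, ∃ n : ℕ, (f ^ n) m = 0) :
    IsNilpotent f := by
  rcases Module.Finite.fg_top (R := A) (M := M) with ⟨S, hS⟩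
  choose g hg using h
  use Finset.sup S g
  ext m
  have hm : m ∈ Submodule.span A S := by simp [hS]
  induction hm using Submodule.span_induction with
  | mem x hx =>
    have h1 : g x ≤ Finset.sup S g := Finset.le_sup hx
    rw [← Nat.sub_add_cancel h1, pow_add, Module.End.mul_apply, hg x, map_zero]
    rfl
  | zero => simp
  | add => simp_all
  | smul => simp_all

/-- Homogeneous endomorphisms of nonzero degree of a module of finite length are nilpotent. -/
theorem nilp_of_deg {A M : Type*} [Ring A] [AddCommGroup M] [Module A M] [IsArtinian A M]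
    [IsNoetherian A M] (G : GGrp M) (w : Module.End A M) (d : ℤ) (hd : d ≠ 0)
    (hw : ∀ i m, G.π (i + d) (w m) = w (G.π i m)) : IsNilpotent w := by
  have hw' : ∀ i m, G.π i (w m) = w (G.π (i - d) m) := by
    intro i m
    have := hw (i - d) m
    rwa [sub_add_cancel] at this
  have hinjφ : ∀ i : ℤ, Injective (fun k : ℕ => i - k * d) := by
    intro i a b hab
    simp only [sub_right_inj] at hab
    have := mul_right_cancel₀ hd hab
    exact_mod_cast this
  have hinjψ : ∀ i : ℤ, Injective (fun k : ℕ => i + k * d) := by
    intro i a b hab
    simp only [add_right_inj] at hab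
    have := mul_right_cancel₀ hd hab
    exact_mod_cast this
  have hinj : Injective ((1 - w : Module.End A M) : M → M) := by
    rw [injective_iff_map_eq_zero]
    intro z hz
    have hz' : w z = z := by
      have : z - w z = 0 := hz
      rw [sub_eq_zero] at this
      exact this.symm
    have key : ∀ k : ℕ, ∀ i : ℤ, G.π i z = (w ^ k) (G.π (i - k * d) z) := by
      intro k
      induction k with
      | zero => intro i; simp
      | succ k ih =>
        intro i
        rw [ih i]
        conv_lhs => rw [← hz', hw']
        rw [pow_succ, Module.End.mul_apply]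
        congr 4
        push_cast; ring
    apply G.ext'
    intro i
    obtain ⟨k, hk⟩ := G.exists_zero z _ (hinjφ i)
    rw [key k i, hk, map_zero, map_zero]
  have hbij := IsArtinian.bijective_of_injective_endomorphism (1 - w) hinj
  have hloc : ∀ m : M, ∃ n : ℕ, (w ^ n) m = 0 := by
    intro m
    refine G.ind (P := fun m => ∃ n : ℕ, (w ^ n) m = 0) ?_ ?_ ?_ m
    · exact ⟨0, by simp⟩
    · rintro x y ⟨a, ha⟩ ⟨b, hb⟩
      refine ⟨a + b, ?_⟩
      rw [map_add]
      nth_rewrite 1 [add_comm a b]
      rw [pow_add, pow_add, Module.End.mul_apply, Module.End.mul_apply, ha, hb, map_zero, map_zero,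
        add_zero]
    · intro i x hx
      obtain ⟨z, hz⟩ := hbij.2 x
      have hz' : ∀ j, G.π j z = w (G.π (j - d) z) + G.π j x := by
        intro j
        rw [← hz]
        simp only [LinearMap.sub_apply, Module.End.one_apply, map_sub, hw']
        abel
      have h1 : ∀ m k : ℕ, G.π (i - (k + 1) * d) z = (w ^ m) (G.π (i - (k + 1) * d - m * d) z) := by
        intro m
        induction m with
        | zero => intro k; simp
        | succ m ih =>
          intro k
          rw [ih k, hz', G.of_self hx, if_neg, add_zero, pow_succ, Module.End.mul_apply]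
          · congr 4
            push_cast; ring
          · intro hcon
            have : ((k : ℤ) + 1 + m) * d = 0 := by linarith
            rcases mul_eq_zero.1 this with h | h
            · omega
            · exact hd h
      have h2 : G.π (i - d) z = 0 := by
        have e : i - d = i - ((0 : ℕ) + 1) * d := by push_cast; ring
        obtain ⟨m, hm⟩ := G.exists_zero z _ (hinjφ (i - ((0 : ℕ) + 1) * d))
        rw [e, h1 m 0, hm, map_zero]
      have h3 : ∀ k : ℕ, G.π (i + k * d) z = (w ^ k) x := by
        intro k
        induction k with
        | zero =>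
          simp only [Nat.cast_zero, zero_mul, add_zero, pow_zero, Module.End.one_apply]
          rw [hz', h2, map_zero, zero_add, hx]
        | succ k ih =>
          rw [hz', G.of_self hx, if_neg, add_zero, pow_succ', Module.End.mul_apply, ← ih]
          · congr 3
            push_cast; ring
          · intro hcon
            have : ((k : ℤ) + 1) * d = 0 := by push_cast at hcon; linarith
            rcases mul_eq_zero.1 this with h | h
            · omega
            · exact hd h
      obtain ⟨k, hk⟩ := G.exists_zero z _ (hinjψ i)
      exact ⟨k, by rw [← h3 k, hk]⟩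
  exact nilp_of_loc w hloc

end Pool.Agent.X86.GR
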