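import Mathlib
import Pool.Agent.X86.GR.Nil
import Pool.Agent.X86.GR.Lev

namespace Pool.Agent.X86.GR

open Function

/-- A ℤ-graded ring, given by the projections. -/
structure GRing (A : Type*) [Ring A] extends GGrp A where
  mul : ∀ i j a b, π j a = a → π (i + j) (a * b) = a * π i b

/-- A graded left module over a ℤ-graded ring, given by the projections. -/
structure GMod {A : Type*} [Ring A] (GA : GRing A) (M : Type*) [AddCommGroup M] [Module A M]
    extends GGrp M where
  smul : ∀ i j (a : A) (m : M), GA.π j a = a → π (i + j) (a • m) = a • π i m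

variable {A : Type*} [Ring A] {GA : GRing A}

/-- The regular module. -/
def GRing.self (GA : GRing A) : GMod GA A where
  toGGrp := GA.toGGrp
  smul i j a m h := GA.mul i j a m h

namespace GMod

variable {M : Type*} [AddCommGroup M] [Module A M] (G : GMod GA M)

theorem smul' (i j : ℤ) (a : A) (m : M) (h : GA.π j a = a) :
    G.π i (a • m) = a • G.π (i - j) m := by
  have := G.smul (i - j) j a m h
  rwa [sub_add_cancel] at this

theorem smulr (a : A) (i : ℤ) (x : M) (hx : G.π i x = x) (j : ℤ) :
    G.π j (a • x) = (GA.π (j - i) a) • x := by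
  refine GA.ind (P := fun a => ∀ j, G.π j (a • x) = (GA.π (j - i) a) • x) ?_ ?_ ?_ a j
  · intro j; simp
  · intro a b ha hb j
    rw [add_smul, map_add, ha, hb, map_add, add_smul]
  · intro k a ha j
    rw [G.smul' _ k a x ha, G.of_self hx, GA.of_self ha]
    by_cases h : j - k = i
    · rw [if_pos h, if_pos (by omega)]
    · rw [if_neg h, if_neg (by omega), smul_zero, zero_smul]

/-- Transport of a grading along a surjective homomorphism with graded kernel. -/
noncomputable def ofSurj {M' : Type*} [AddCommGroup M'] [Module A M'] (q : M →ₗ[A] M')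
    (hq : Surjective q) (hk : ∀ x, q x = 0 → ∀ i, q (G.π i x) = 0) : GMod GA M' :=
  have key : ∀ i x x', q x = q x' → q (G.π i x) = q (G.π i x') := by
    intro i x x' h
    rw [← sub_eq_zero, ← map_sub, ← map_sub]
    exact hk _ (by rw [map_sub, h, sub_self]) i
  have key' : ∀ i x, q (G.π i (surjInv hq (q x))) = q (G.π i x) :=
    fun i x => key i _ _ (surjInv_eq hq _)
  { π := fun i =>
      { toFun := fun y => q (G.π i (surjInv hq y))
        map_zero' := by
          have := key' i 0
          rwa [map_zero, map_zero, map_zero] at this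
        map_add' := by
          intro y y'
          obtain ⟨x, rfl⟩ := hq y
          obtain ⟨x', rfl⟩ := hq y'
          rw [← map_add, key', key', key', map_add, map_add] }
    fin := by
      intro y
      obtain ⟨x, rfl⟩ := hq y
      refine (G.fin x).subset ?_
      intro i hi
      simp only [mem_support, AddMonoidHom.coe_mk, ZeroHom.coe_mk, key'] at hi ⊢
      intro h
      exact hi (by rw [h, map_zero])
    sum := by
      intro y
      obtain ⟨x, rfl⟩ := hq y
      simp only [AddMonoidHom.coe_mk, ZeroHom.coe_mk, key']
      conv_rhs => rw [← G.sum x]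
      exact (AddMonoidHom.map_finsum q.toAddMonoidHom (G.fin x)).symm
    orth := by
      intro i j y
      obtain ⟨x, rfl⟩ := hq y
      simp only [AddMonoidHom.coe_mk, ZeroHom.coe_mk, key', G.orth]
      split_ifs <;> simp
    smul := by
      intro i j a y h
      obtain ⟨x, rfl⟩ := hq y
      rw [← map_smul]
      simp only [AddMonoidHom.coe_mk, ZeroHom.coe_mk, key']
      rw [G.smul i j a x h, map_smul] }

theorem ofSurj_apply {M' : Type*} [AddCommGroup M'] [Module A M'] (q : M →ₗ[A] M')
    (hq : Surjective q) (hk : ∀ x, q x = 0 → ∀ i, q (G.π i x) = 0) (i : ℤ) (x : M) :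
    (G.ofSurj q hq hk).π i (q x) = q (G.π i x) := by
  change q (G.π i (surjInv hq (q x))) = q (G.π i x)
  rw [← sub_eq_zero, ← map_sub, ← map_sub]
  exact hk _ (by rw [map_sub, surjInv_eq hq (q x), sub_self]) i

/-- Product of graded modules. -/
def prod {M' : Type*} [AddCommGroup M'] [Module A M'] (G' : GMod GA M') : GMod GA (M × M') where
  π i := (G.π i).prodMap (G'.π i)
  fin m := by
    refine ((G.fin m.1).union (G'.fin m.2)).subset ?_
    intro i hi
    by_contra h
    simp only [Set.mem_union, mem_support, not_or, not_not] at h
    exact hi (Prod.ext h.1 h.2)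
  sum m := by
    have hf : (support fun i => ((G.π i).prodMap (G'.π i)) m).Finite := by
      refine ((G.fin m.1).union (G'.fin m.2)).subset ?_
      intro i hi
      by_contra h
      simp only [Set.mem_union, mem_support, not_or, not_not] at h
      exact hi (Prod.ext h.1 h.2)
    refine Prod.ext ?_ ?_
    · exact (AddMonoidHom.map_finsum (AddMonoidHom.fst M M') hf).trans (G.sum m.1)
    · exact (AddMonoidHom.map_finsum (AddMonoidHom.snd M M') hf).trans (G'.sum m.2)
  orth i j m := by
    refine Prod.ext ?_ ?_
    · refine (G.orth i j m.1).trans ?_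
      split_ifs <;> rfl
    · refine (G'.orth i j m.2).trans ?_
      split_ifs <;> rfl
  smul i j a m h := Prod.ext (G.smul i j a m.1 h) (G'.smul i j a m.2 h)

/-- Free module with generators in prescribed degrees. -/
def free (GA : GRing A) {J : Type*} [Finite J] (deg : J → ℤ) : GMod GA (J → A) where
  π i :=
    { toFun := fun p j => GA.π (i - deg j) (p j)
      map_zero' := by ext j; simp
      map_add' := by intro p q; ext j; simp }
  fin p := by
    refine (Set.finite_iUnion (fun j => (GA.fin (p j)).image (fun k => k + deg j))).subset ?_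
    intro i hi
    by_contra h
    apply hi
    ext j
    by_contra h'
    exact h (Set.mem_iUnion.2 ⟨j, i - deg j, h', by simp⟩)
  sum p := by
    have hf : (support fun i => (fun j => GA.π (i - deg j) (p j))).Finite := by
      refine (Set.finite_iUnion (fun j => (GA.fin (p j)).image (fun k => k + deg j))).subset ?_
      intro i hi
      by_contra h
      apply hi
      ext j
      by_contra h'
      exact h (Set.mem_iUnion.2 ⟨j, i - deg j, h', by simp⟩)
    ext j
    refine (AddMonoidHom.map_finsum (Pi.evalAddMonoidHom (fun _ => A) j) hf).trans ?_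
    refine Eq.trans ?_ (GA.sum (p j))
    exact finsum_comp_equiv (Equiv.subRight (deg j)) (f := fun i => GA.π i (p j))
  orth i j p := by
    ext k
    simp only [AddMonoidHom.coe_mk, ZeroHom.coe_mk, GA.orth]
    by_cases h : i = j
    · simp [h]
    · rw [if_neg, if_neg h]
      · rfl
      · omega
  smul i j a p h := by
    ext k
    simp only [AddMonoidHom.coe_mk, ZeroHom.coe_mk, Pi.smul_apply, smul_eq_mul]
    rw [← GA.mul _ _ _ _ h]
    congr 2
    ring

theorem free_apply (GA : GRing A) {J : Type*} [Finite J] (deg : J → ℤ) (i : ℤ) (p : J → A) :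
    (free GA deg).π i p = fun j => GA.π (i - deg j) (p j) := rfl

end GMod

end Pool.Agent.X86.GR
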