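import Mathlib
import Pool.Agent.X86.GR.Mod

namespace Pool.Agent.X86.GR

open Function

variable {A : Type*} [Ring A]

/-- Right multiplication. -/
abbrev rm (a : A) : Module.End A A := LinearMap.toSpanSingleton A A a

theorem rm_mul (a b : A) : rm a * rm b = rm (b * a) := by
  ext
  simp [rm]

theorem bdd_above (GA : GRing A) [IsArtinianRing A] :
    ∃ s : ℤ, ∀ i, s < i → ∀ a, GA.π i a = 0 := by
  classical
  have : IsNoetherianRing A := inferInstance
  set H : Set A := {a | ∃ d : ℤ, 0 < d ∧ GA.π d a = a} with hH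
  set S : Set (Module.End A A) := rm '' H with hS
  have hHmul : ∀ a ∈ H, ∀ b ∈ H, a * b ∈ H := by
    rintro a ⟨d, hd, ha⟩ b ⟨e, he, hb⟩
    refine ⟨e + d, by omega, ?_⟩
    rw [GA.mul _ _ _ _ ha, hb]
  have hSmul : ∀ s ∈ S, ∀ t ∈ S, s * t ∈ S := by
    rintro _ ⟨a, ha, rfl⟩ _ ⟨b, hb, rfl⟩
    exact ⟨b * a, hHmul b hb a ha, (rm_mul a b).symm⟩
  have hSnil : ∀ s ∈ S, IsNilpotent s := by
    rintro _ ⟨a, ⟨d, hd, ha⟩, rfl⟩
    refine nilp_of_deg GA.toGGrp (rm a) d hd.ne' ?_
    intro i m
    simp only [rm, LinearMap.toSpanSingleton_apply]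
    exact (GA.self.smulr m d a ha (i + d)).trans (by rw [add_sub_cancel_right])
  obtain ⟨L, hL⟩ := levitzki_pw S hSmul hSnil
  have hfg : (Ideal.span H).FG := IsNoetherian.noetherian _
  obtain ⟨F, hFH, hF⟩ := (Submodule.fg_span_iff_fg_span_finset_subset H).1 hfg
  choose! deg hdeg using (fun a (ha : a ∈ H) => ha)
  obtain ⟨D, hD⟩ : ∃ D : ℤ, ∀ a ∈ F, deg a ≤ D := by
    obtain ⟨D, hD⟩ := (F.image deg).bddAbove
    exact ⟨D, fun a ha => hD (by simpa using ⟨a, ha, rfl⟩)⟩
  have hmain : ∀ m : ℕ, ∀ n : ℤ, 0 < n → m * D < n → ∀ y : A, GA.π n y = y →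
      rm y ∈ Pw S (m + 1) := by
    intro m
    induction m with
    | zero =>
      intro n hn _ y hy
      exact AddSubgroup.subset_closure ⟨rm y, ⟨y, ⟨n, hn, hy⟩, rfl⟩, 1, AddSubgroup.mem_top _,
        (mul_one _).symm⟩
    | succ m ih =>
      intro n hn hn' y hy
      have hyI : y ∈ Submodule.span A (F : Set A) := by
        rw [← hF]; exact Submodule.subset_span ⟨n, hn, hy⟩
      rw [Submodule.mem_span_finset'] at hyI
      obtain ⟨c, hc⟩ := hyI
      have hy2 : y = ∑ x : F, GA.π (n - deg x) (c x) * (x : A) := by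
        conv_lhs => rw [← hy, ← hc, map_sum]
        refine Finset.sum_congr rfl fun x _ => ?_
        exact GA.self.smulr (c x) (deg x) x (hdeg x (hFH x.2)).2 n
      have hy3 : rm y = ∑ x : F, rm (x : A) * rm (GA.π (n - deg x) (c x)) := by
        conv_lhs => rw [hy2]
        ext
        simp [rm]
      rw [hy3]
      refine AddSubgroup.sum_mem _ fun x _ => ?_
      refine AddSubgroup.subset_closure ⟨rm (x : A), ⟨x, hFH x.2, rfl⟩, _, ?_, rfl⟩
      have h1 := hD x x.2
      have h2 := (hdeg x (hFH x.2)).1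
      have h5 : ((m : ℤ) + 1) * D < n := by push_cast at hn'; exact hn'
      have h3 : m * D < n - deg x := by nlinarith
      have h4 : 0 ≤ (m : ℤ) * D := mul_nonneg (by positivity) (by omega)
      exact ih _ (by omega) h3 _ (GA.toGGrp.self _ _)
  have hD0 : (0 : ℤ) ≤ |D| := abs_nonneg D
  refine ⟨L * |D|, fun i hi a => ?_⟩
  have hL0 : (0 : ℤ) ≤ L * |D| := mul_nonneg (by positivity) hD0
  have hle : (L : ℤ) * D ≤ L * |D| := mul_le_mul_of_nonneg_left (le_abs_self D) (by positivity)
  have h1 := hmain L i (by omega) (by omega) _ (GA.toGGrp.self i a)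
  have hmono : ∀ n, ∀ x ∈ Pw S (n + 1), x ∈ Pw S n := by
    intro n
    induction n with
    | zero => intro x _; exact AddSubgroup.mem_top _
    | succ n ih =>
      intro x hx
      refine AddSubgroup.closure_mono ?_ hx
      rintro _ ⟨s, hs, y, hy, rfl⟩
      exact ⟨s, hs, y, ih y hy, rfl⟩
  have h2 := hL _ (hmono L _ h1)
  have h3 := congrArg (fun f : Module.End A A => f 1) h2
  simpa [rm] using h3

/-- The opposite grading. -/
def GRing.neg (GA : GRing A) : GRing A where
  π i := GA.π (-i)
  fin m := (((GA.fin m).image (fun i => -i))).subset (fun i hi => ⟨-i, hi, neg_neg i⟩)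
  sum m := (finsum_comp_equiv (Equiv.neg ℤ) (f := fun i => GA.π i m)).trans (GA.sum m)
  orth i j m := by
    rw [GA.orth]
    by_cases h : i = j
    · rw [if_pos h, if_pos (by omega)]
    · rw [if_neg h, if_neg (by omega)]
  mul i j a b h := by
    rw [← GA.mul _ _ _ _ h]
    congr 2
    ring

theorem bdd_ring (GA : GRing A) [IsArtinianRing A] :
    ∃ s : ℤ, 0 ≤ s ∧ ∀ i, s < |i| → ∀ a, GA.π i a = 0 := by
  obtain ⟨s, hs⟩ := bdd_above GA
  obtain ⟨t, ht⟩ := bdd_above GA.neg
  refine ⟨max 0 (max s t), le_max_left _ _, fun i hi a => ?_⟩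
  rcases le_or_gt 0 i with h | h
  · exact hs i (by rw [abs_of_nonneg h] at hi; omega) a
  · have := ht (-i) (by rw [abs_of_neg h] at hi; omega) a
    change GA.π (- -i) a = 0 at this
    rwa [neg_neg] at this

theorem GMod.bdd {GA : GRing A} {M : Type*} [AddCommGroup M] [Module A M] (G : GMod GA M)
    [IsArtinianRing A] [Module.Finite A M] :
    ∃ w : ℤ, 0 ≤ w ∧ ∀ i, w < |i| → ∀ m, G.π i m = 0 := by
  classical
  obtain ⟨s, hs0, hs⟩ := bdd_ring GA
  obtain ⟨S, hS⟩ := Module.Finite.fg_top (R := A) (M := M)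
  obtain ⟨w, hw⟩ : ∃ w : ℤ, ∀ g ∈ S, ∀ i, w < |i| → G.π i g = 0 := by
    obtain ⟨w, hw⟩ := ((S.biUnion fun g => (G.fin g).toFinset).image (|·|)).bddAbove
    refine ⟨w, fun g hg i hi => ?_⟩
    by_contra hcon
    have : |i| ≤ w := hw (by
      rw [Finset.mem_coe, Finset.mem_image]
      exact ⟨i, by rw [Finset.mem_biUnion]; exact ⟨g, hg, by simpa using hcon⟩, rfl⟩)
    omega
  have key : ∀ x : M, (∀ i, w < |i| → G.π i x = 0) → ∀ (a : A) (l : ℤ), s + w < |l| →
      G.π l (a • x) = 0 := by
    intro x hx a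
    refine GA.ind (P := fun a => ∀ l : ℤ, s + w < |l| → G.π l (a • x) = 0) ?_ ?_ ?_ a
    · intro l _; simp
    · intro a b ha hb l hl
      rw [add_smul, map_add, ha l hl, hb l hl, add_zero]
    · intro k a ha l hl
      by_cases hk : s < |k|
      · rw [← ha, hs k hk, zero_smul, map_zero]
      · rw [G.smul' _ _ _ _ ha, hx _ ?_, smul_zero]
        have := abs_sub_abs_le_abs_sub l k
        omega
  refine ⟨max 0 (s + w), le_max_left _ _, fun i hi m => ?_⟩
  have hm : m ∈ Submodule.span A (S : Set M) := by rw [hS]; trivial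
  have : ∀ (a : A) (l : ℤ), s + w < |l| → G.π l (a • m) = 0 := by
    induction hm using Submodule.span_induction with
    | mem x hx => exact key x (hw x hx)
    | zero => intro a l _; simp
    | add x y _ _ hx hy => intro a l hl; rw [smul_add, map_add, hx a l hl, hy a l hl, add_zero]
    | smul b x _ hx => intro a l hl; rw [smul_smul]; exact hx _ l hl
  have h1 := this 1 i (by omega)
  rwa [one_smul] at h1

section comp

variable {GA : GRing A} {M N : Type*} [AddCommGroup M] [Module A M] [AddCommGroup N] [Module A N]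
  (GM : GMod GA M) (GN : GMod GA N)

/-- The component of degree `d` of a homomorphism. -/
noncomputable def comp (h : M →ₗ[A] N) (d : ℤ) : M →ₗ[A] N :=
  have hfin : ∀ m, (support fun i => GN.π (i + d) (h (GM.π i m))).Finite := by
    intro m
    refine (GM.fin m).subset fun i hi => ?_
    simp only [mem_support] at hi ⊢
    intro h0
    exact hi (by rw [h0, map_zero, map_zero])
  { toFun := fun m => ∑ᶠ i, GN.π (i + d) (h (GM.π i m))
    map_add' := by
      intro x y
      rw [← finsum_add_distrib (hfin x) (hfin y)]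
      exact finsum_congr fun i => by rw [map_add, map_add, map_add]
    map_smul' := by
      intro a m
      refine GA.ind (P := fun a => ∑ᶠ i, GN.π (i + d) (h (GM.π i (a • m)))
        = (RingHom.id A) a • ∑ᶠ i, GN.π (i + d) (h (GM.π i m))) ?_ ?_ ?_ a
      · simp
      · intro a b ha hb
        rw [map_add (RingHom.id A), add_smul ((RingHom.id A) a), ← ha, ← hb,
          ← finsum_add_distrib (hfin _) (hfin _)]
        exact finsum_congr fun i => by rw [add_smul, map_add, map_add, map_add]
      · intro k a ha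
        have h1 : ∀ i, GN.π (i + d) (h (GM.π i (a • m)))
            = a • GN.π (i - k + d) (h (GM.π (i - k) m)) := by
          intro i
          rw [GM.smul' _ _ _ _ ha, map_smul, GN.smul' _ _ _ _ ha,
            show i + d - k = i - k + d by ring]
        rw [finsum_congr h1]
        have h2 : ∑ᶠ i, a • GN.π (i - k + d) (h (GM.π (i - k) m))
            = ∑ᶠ i, a • GN.π (i + d) (h (GM.π i m)) :=
          finsum_comp_equiv (Equiv.subRight k) (f := fun i => a • GN.π (i + d) (h (GM.π i m)))
        rw [h2]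
        exact (AddMonoidHom.map_finsum (DistribSMul.toAddMonoidHom N a) (hfin m)).symm }

theorem comp_of (h : M →ₗ[A] N) (d i : ℤ) (x : M) (hx : GM.π i x = x) :
    comp GM GN h d x = GN.π (i + d) (h x) := by
  change ∑ᶠ j, GN.π (j + d) (h (GM.π j x)) = _
  rw [finsum_eq_single _ i]
  · rw [hx]
  · intro j hj
    rw [GM.of_self hx, if_neg hj, map_zero, map_zero]

theorem comp_hom (h : M →ₗ[A] N) (d i : ℤ) (x : M) :
    GN.π (i + d) (comp GM GN h d x) = comp GM GN h d (GM.π i x) := by
  refine GM.ind (P := fun x => GN.π (i + d) (comp GM GN h d x) = comp GM GN h d (GM.π i x))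
    ?_ ?_ ?_ x
  · simp
  · intro x y hx hy
    simp only [map_add, hx, hy]
  · intro j x hx
    rw [comp_of GM GN h d j x hx, GM.of_self hx, GN.orth]
    by_cases hij : i = j
    · rw [if_pos (by omega), if_pos hij, comp_of GM GN h d j x hx]
    · rw [if_neg (by omega), if_neg hij, map_zero]

theorem comp_sum (h : M →ₗ[A] N) {w w' : ℤ} (hw : ∀ i, w < |i| → ∀ m, GM.π i m = 0)
    (hw' : ∀ i, w' < |i| → ∀ m, GN.π i m = 0) :
    ∑ d ∈ Finset.Icc (-(w + w')) (w + w'), comp GM GN h d = h := by
  ext x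
  rw [LinearMap.sum_apply]
  refine GM.ind (P := fun x => ∑ d ∈ Finset.Icc (-(w + w')) (w + w'), comp GM GN h d x = h x)
    ?_ ?_ ?_ x
  · simp
  · intro x y hx hy
    simp only [map_add, Finset.sum_add_distrib, hx, hy]
  · intro i x hx
    by_cases hi : w < |i|
    · rw [← hx, hw i hi]; simp
    · apply GN.ext'
      intro j
      rw [map_sum]
      have h1 : ∀ d, GN.π j (comp GM GN h d x) = if j = i + d then GN.π j (h x) else 0 := by
        intro d
        rw [comp_of GM GN h d i x hx, GN.orth]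
        split_ifs with hh
        · rw [hh]
        · rfl
      rw [Finset.sum_congr rfl fun d _ => h1 d]
      by_cases hj : w' < |j|
      · simp [hw' j hj]
      · rw [Finset.sum_eq_single (j - i)]
        · rw [if_pos (by ring)]
        · intro d _ hd
          rw [if_neg (by omega)]
        · intro hcon
          exfalso
          apply hcon
          rw [Finset.mem_Icc, ← abs_le]
          have := abs_sub j i
          omega

end comp

end Pool.Agent.X86.GR
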