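import Mathlib
import Pool.Agent.X86.GR.Bdd

namespace Pool.Agent.X86.GR

open Function

universe u

/-- The graded core construction. -/
theorem exists_core {A : Type u} [Ring A] [IsArtinianRing A] {GA : GRing A} {C N : Type u}
    [AddCommGroup C] [Module A C] [Module.Finite A C] (GC : GMod GA C)
    [AddCommGroup N] [Module A N] [Module.Finite A N] (f : C →ₗ[A] N) (W : ℤ) :
    ∃ (M : Type u) (_ : AddCommGroup M) (_ : Module A M) (_ : Module.Finite A M) (GM : GMod GA M)
      (c : M →ₗ[A] N) (ι : C →ₗ[A] M),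
      (∀ i x, GM.π i (ι x) = ι (GC.π i x)) ∧ (∀ x, c (ι x) = f x) ∧
      (∀ i x, GM.π i x = x → c x = 0 → x = 0) ∧
      (∀ l, |l| ≤ W → ∀ n, ∃ x, GM.π l x = x ∧ c x = n) := by
  classical
  obtain ⟨s, hs0, hs⟩ := bdd_ring GA
  obtain ⟨k, ν, hν⟩ := Module.Finite.exists_fin (R := A) (M := N)
  let I : Finset ℤ := Finset.Icc (-(W + s)) (W + s)
  let J := Fin k × I
  let deg : J → ℤ := fun j => j.2
  let P := C × (J → A)
  let GP : GMod GA P := GC.prod (GMod.free GA deg)
  let lin : (J → A) →ₗ[A] N := Fintype.linearCombination A (fun j : J => ν j.1)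
  let c0 : P →ₗ[A] N := f.coprod lin
  let Q : Submodule A P :=
    { carrier := {y | ∀ i, c0 (GP.π i y) = 0}
      zero_mem' := by intro i; simp
      add_mem' := by
        intro x y hx hy i
        rw [map_add, map_add, hx i, hy i, add_zero]
      smul_mem' := by
        intro a y hy
        refine GA.ind (P := fun a => ∀ i, c0 (GP.π i (a • y)) = 0) ?_ ?_ ?_ a
        · intro i; simp
        · intro a b ha hb i
          rw [add_smul, map_add, map_add, ha i, hb i, add_zero]
        · intro j a ha i
          rw [GP.smul' _ _ _ _ ha, map_smul, hy, smul_zero] }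
  have hQπ : ∀ x, Q.mkQ x = 0 → ∀ i, Q.mkQ (GP.π i x) = 0 := by
    intro x hx i
    rw [Submodule.mkQ_apply, Submodule.Quotient.mk_eq_zero] at hx ⊢
    intro j
    rw [GP.orth]
    split_ifs
    · exact hx i
    · exact map_zero _
  have hQker : Q ≤ LinearMap.ker c0 := by
    intro x hx
    rw [LinearMap.mem_ker, ← GP.sum x]
    have := AddMonoidHom.map_finsum c0.toAddMonoidHom (GP.fin x)
    refine this.trans ?_
    rw [← finsum_zero (α := ℤ)]
    exact finsum_congr fun i => hx i
  let GM : GMod GA (P ⧸ Q) := GP.ofSurj Q.mkQ Q.mkQ_surjective hQπ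
  have hGM : ∀ i x, GM.π i (Q.mkQ x) = Q.mkQ (GP.π i x) :=
    fun i x => GP.ofSurj_apply Q.mkQ Q.mkQ_surjective hQπ i x
  refine ⟨P ⧸ Q, inferInstance, inferInstance, inferInstance, GM, Q.liftQ c0 hQker,
    Q.mkQ ∘ₗ LinearMap.inl A C (J → A), ?_, ?_, ?_, ?_⟩
  · intro i x
    rw [LinearMap.comp_apply, hGM, LinearMap.comp_apply]
    congr 1
    exact Prod.ext rfl (map_zero ((GMod.free GA deg).π i))
  · intro x
    change f x + lin 0 = f x
    rw [map_zero, add_zero]
  · intro i x hx hcx
    obtain ⟨y, rfl⟩ := Q.mkQ_surjective x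
    rw [hGM] at hx
    rw [← hx]
    rw [← hx, Submodule.mkQ_apply, Submodule.liftQ_apply] at hcx
    rw [Submodule.mkQ_apply, Submodule.Quotient.mk_eq_zero]
    intro j
    rw [GP.orth]
    split_ifs with h
    · exact hcx
    · exact map_zero _
  · intro l hl n
    have hn : n ∈ Submodule.span A (Set.range ν) := by rw [hν]; trivial
    rw [Submodule.mem_span_range_iff_exists_fun] at hn
    obtain ⟨a, ha⟩ := hn
    let p : J → A := fun j => GA.π (l - deg j) (a j.1)
    have hp : (GMod.free GA deg).π l p = p := by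
      rw [GMod.free_apply]
      ext j
      exact GA.toGGrp.self _ _
    refine ⟨Q.mkQ (0, p), ?_, ?_⟩
    · rw [hGM]
      congr 1
      exact Prod.ext (map_zero (GC.π l)) hp
    · rw [Submodule.mkQ_apply, Submodule.liftQ_apply]
      change f 0 + Fintype.linearCombination A (fun j : J => ν j.1) p = n
      rw [map_zero, zero_add, Fintype.linearCombination_apply]
      rw [Fintype.sum_prod_type, ← ha]
      refine Finset.sum_congr rfl fun x _ => ?_
      simp only [p, deg]
      rw [← Finset.sum_smul]
      congr 1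
      rw [Finset.sum_coe_sort I (fun i => GA.π (l - i) (a x))]
      conv_rhs => rw [← GA.sum (a x), ← finsum_comp_equiv (Equiv.subLeft l)]
      symm
      apply finsum_eq_sum_of_support_subset
      intro i hi
      by_contra hcon
      apply hi
      apply hs
      rw [Finset.mem_coe, Finset.mem_Icc, ← abs_le, not_le] at hcon
      have := abs_sub_abs_le_abs_sub i l
      rw [Equiv.subLeft_apply, abs_sub_comm]
      omega

end Pool.Agent.X86.GR
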