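import Mathlib
import Pool.Agent.X86.GR.Core

namespace Pool.Agent.X86.GR

open Function

/-- Fitting's lemma, graded form. -/
theorem fitting {A C : Type*} [Ring A] [AddCommGroup C] [Module A C] [IsArtinian A C]
    [IsNoetherian A C] (G : GGrp C) (v : Module.End A C)
    (hv : ∀ i x, G.π i (v x) = v (G.π i x)) :
    ∃ (n : ℕ) (y : Module.End A C), 0 < n ∧ (∀ i x, G.π i (y x) = y (G.π i x)) ∧
      y * v ^ n = v ^ n * y ∧ v ^ n * y * v ^ n = v ^ n := by
  obtain ⟨n, hn, hn0⟩ := (v.eventually_isCompl_ker_pow_range_pow.and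
    (Filter.eventually_gt_atTop 0)).exists
  have hVπ : ∀ k : ℕ, ∀ i x, G.π i ((v ^ k) x) = (v ^ k) (G.π i x) := by
    intro k
    induction k with
    | zero => intro i x; simp
    | succ k ih => intro i x; rw [pow_succ', Module.End.mul_apply, Module.End.mul_apply, hv, ih]
  have hVπ := hVπ n
  refine ⟨n, ?_⟩
  generalize v ^ n = V at hn hVπ ⊢
  have disj : ∀ z, z ∈ LinearMap.range V → V z = 0 → z = 0 := by
    intro z h1 h2
    exact Submodule.disjoint_def.1 hn.disjoint z h2 h1
  have codisj : ∀ x, ∃ t, V x = V (V t) := by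
    intro x
    have hx : x ∈ LinearMap.ker V ⊔ LinearMap.range V := by rw [hn.sup_eq_top]; trivial
    obtain ⟨a, ha, b, ⟨t, rfl⟩, rfl⟩ := Submodule.mem_sup.1 hx
    exact ⟨t, by rw [map_add, LinearMap.mem_ker.1 ha, zero_add]⟩
  have hex : ∀ x, ∃ t, V (V (V t)) = V x := by
    intro x
    obtain ⟨t, ht⟩ := codisj x
    obtain ⟨t', ht'⟩ := codisj t
    exact ⟨t', by rw [← ht', ht]⟩
  choose t ht using hex
  have huniq : ∀ a b, V (V (V a)) = V (V (V b)) → V a = V b := by
    intro a b hab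
    rw [← sub_eq_zero, ← map_sub, ← map_sub, ← map_sub] at hab
    rw [← sub_eq_zero, ← map_sub]
    exact disj _ ⟨_, rfl⟩ (disj _ ⟨_, rfl⟩ hab)
  let y : Module.End A C :=
    { toFun := fun x => V (t x)
      map_add' := by
        intro x x'
        rw [← map_add]
        apply huniq
        rw [ht]
        simp only [map_add, ht]
      map_smul' := by
        intro a x
        rw [RingHom.id_apply, ← map_smul]
        apply huniq
        rw [ht]
        simp only [map_smul, ht] }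
  have hy : ∀ x, y x = V (t x) := fun _ => rfl
  refine ⟨y, hn0, ?_, ?_, ?_⟩
  · intro i x
    rw [hy, hy, hVπ]
    apply huniq
    rw [ht, ← hVπ, ← hVπ, ← hVπ, ht, hVπ]
  · ext x
    rw [Module.End.mul_apply, Module.End.mul_apply, hy, hy]
    apply huniq
    rw [ht, ht]
  · ext x
    rw [Module.End.mul_apply, Module.End.mul_apply, hy, ← sub_eq_zero, ← map_sub V]
    apply disj _ ⟨_, rfl⟩
    rw [map_sub, map_sub, ht, sub_self]

universe u

section step

variable {A : Type u} [Ring A] [IsArtinianRing A] {GA : GRing A} {C N M : Type u}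
  [AddCommGroup C] [Module A C] [Module.Finite A C] (GC : GMod GA C)
  [AddCommGroup N] [Module A N]
  [AddCommGroup M] [Module A M] [Module.Finite A M] (GM : GMod GA M)

/-- Degree-zero maps `r : M → C` with `r ι r = r`. -/
def IsRetr (ι : C →ₗ[A] M) (r : M →ₗ[A] C) : Prop :=
  (∀ i x, GC.π i (r x) = r (GM.π i x)) ∧ ∀ x, r (ι (r x)) = r x

theorem pow_hom (v : Module.End A C) (hv : ∀ i x, GC.π i (v x) = v (GC.π i x)) (k : ℕ) :
    ∀ i x, GC.π i ((v ^ k) x) = (v ^ k) (GC.π i x) := by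
  induction k with
  | zero => intro i x; simp
  | succ k ih => intro i x; rw [pow_succ', Module.End.mul_apply, Module.End.mul_apply, hv, ih]

/-- A non-nilpotent degree-zero endomorphism factoring through `ι` gives a retraction. -/
theorem exists_retr_of (ι : C →ₗ[A] M) (hι : ∀ i x, GM.π i (ι x) = ι (GC.π i x))
    (h' : M →ₗ[A] C) (hh : ∀ i x, GC.π i (h' x) = h' (GM.π i x))
    (hnil : ¬ IsNilpotent (h' ∘ₗ ι : Module.End A C)) : ∃ r, IsRetr GC GM ι r ∧ r ≠ 0 := by
  have : IsNoetherianRing A := inferInstance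
  have : IsArtinian A C := inferInstance
  have : IsNoetherian A C := inferInstance
  set v : Module.End A C := h' ∘ₗ ι with hvdef
  have hv : ∀ i x, GC.π i (v x) = v (GC.π i x) := by
    intro i x
    rw [hvdef, LinearMap.comp_apply, LinearMap.comp_apply, hh, hι]
  obtain ⟨n, y, hn, hy, hcomm, hreg⟩ := fitting GC.toGGrp v hv
  obtain ⟨m, rfl⟩ : ∃ m, n = m + 1 := ⟨n - 1, by omega⟩
  have hvm := pow_hom GC v hv m
  have hvm1 := pow_hom GC v hv (m + 1)
  set e : Module.End A C := y * v ^ (m + 1) with he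
  have hee : e * e = e := by
    rw [he]
    calc y * v ^ (m + 1) * (y * v ^ (m + 1)) = y * (v ^ (m + 1) * y * v ^ (m + 1)) := by
          simp only [mul_assoc]
      _ = _ := by rw [hreg]
  have heπ : ∀ i x, GC.π i (e x) = e (GC.π i x) := by
    intro i x
    rw [he, Module.End.mul_apply, Module.End.mul_apply, hy, hvm1]
  let r : M →ₗ[A] C := (e * y * v ^ m) ∘ₗ h'
  have hrι : ∀ x, r (ι x) = e x := by
    intro x
    change (e * y * v ^ m) (v x) = e x
    rw [← Module.End.mul_apply, mul_assoc, ← pow_succ, mul_assoc, ← he, hee]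
  refine ⟨r, ⟨?_, ?_⟩, ?_⟩
  · intro i x
    change GC.π i ((e * y * v ^ m) (h' x)) = (e * y * v ^ m) (h' (GM.π i x))
    simp only [Module.End.mul_apply, heπ, hy, hvm, hh]
  · intro x
    rw [hrι]
    change e ((e * y * v ^ m) (h' x)) = (e * y * v ^ m) (h' x)
    rw [← Module.End.mul_apply, ← mul_assoc, ← mul_assoc, hee]
  · intro hr
    apply hnil
    refine ⟨m + 1, ?_⟩
    have he0 : e = 0 := by
      ext x
      rw [← hrι, hr]; rfl
    have : v ^ (m + 1) = v ^ (m + 1) * e := by rw [he, ← mul_assoc, hreg]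
    rw [this, he0, mul_zero]

/-- Existence of a nonzero retraction. -/
theorem exists_retr (c : M →ₗ[A] N) (f : C →ₗ[A] N) (ι : C →ₗ[A] M)
    (hι : ∀ i x, GM.π i (ι x) = ι (GC.π i x)) (hcι : ∀ x, c (ι x) = f x)
    (h : M →ₗ[A] C) (hfh : ∀ x, f (h x) = c x) (hf0 : f ≠ 0) :
    ∃ r, IsRetr GC GM ι r ∧ r ≠ 0 := by
  have : IsNoetherianRing A := inferInstance
  have : IsArtinian A C := inferInstance
  have : IsNoetherian A C := inferInstance
  by_contra hcon
  let S : Set (Module.End A C) := {v | ∃ (h' : M →ₗ[A] C) (d : ℤ),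
    (∀ i x, GC.π (i + d) (h' x) = h' (GM.π i x)) ∧ v = h' ∘ₗ ι}
  have hmul : ∀ s ∈ S, ∀ t ∈ S, s * t ∈ S := by
    rintro _ ⟨a, d, ha, rfl⟩ _ ⟨b, e, hb, rfl⟩
    refine ⟨a ∘ₗ ι ∘ₗ b, e + d, ?_, rfl⟩
    intro i x
    simp only [LinearMap.comp_apply]
    rw [← add_assoc, ha, hι, hb]
  have hnil : ∀ s ∈ S, IsNilpotent s := by
    rintro _ ⟨a, d, ha, rfl⟩
    by_cases hd : d = 0
    · subst hd
      by_contra hn
      exact hcon (exists_retr_of GC GM ι hι a (fun i x => by rw [← ha, add_zero]) hn)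
    · refine nilp_of_deg GC.toGGrp _ d hd ?_
      intro i x
      rw [LinearMap.comp_apply, LinearMap.comp_apply, ha, hι]
  obtain ⟨w, hw0, hw⟩ := GC.bdd
  obtain ⟨w', hw0', hw'⟩ := GM.bdd
  have hθ : (h ∘ₗ ι : Module.End A C) ∈ AddSubgroup.closure S := by
    have : (h ∘ₗ ι : Module.End A C)
        = ∑ d ∈ Finset.Icc (-(w' + w)) (w' + w), (comp GM GC h d ∘ₗ ι : Module.End A C) := by
      ext x
      conv_lhs => rw [← comp_sum GM GC h hw' hw]
      simp only [LinearMap.comp_apply, LinearMap.sum_apply]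
    rw [this]
    refine AddSubgroup.sum_mem _ fun d _ => AddSubgroup.subset_closure ?_
    exact ⟨comp GM GC h d, d, fun i x => comp_hom GM GC h d i x, rfl⟩
  obtain ⟨L, hL⟩ := levitzki_closure S hmul hnil _ hθ
  have hfL : ∀ k : ℕ, ∀ x, f (((h ∘ₗ ι : Module.End A C) ^ k) x) = f x := by
    intro k
    induction k with
    | zero => intro x; simp
    | succ k ih =>
      intro x
      rw [pow_succ', Module.End.mul_apply, LinearMap.comp_apply, hfh, hcι, ih]
  apply hf0
  ext x
  rw [← hfL L, hL]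
  simp

end step

end Pool.Agent.X86.GR
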