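import Mathlib
import Pool.Agent.X86.GR.Retr

namespace Pool.Agent.X86.GR

open Function

universe u

section step

variable {A : Type u} [Ring A] [IsArtinianRing A] {GA : GRing A} {C N M : Type u}
  [AddCommGroup C] [Module A C] [Module.Finite A C] (GC : GMod GA C)
  [AddCommGroup N] [Module A N]
  [AddCommGroup M] [Module A M] (GM : GMod GA M)

theorem exists_min_retr (ι : C →ₗ[A] M) (hex : ∃ r, IsRetr GC GM ι r ∧ r ≠ 0) :
    ∃ r, IsRetr GC GM ι r ∧ r ≠ 0 ∧ ∀ r', IsRetr GC GM ι r' → r' ≠ 0 →
      LinearMap.range r' ≤ LinearMap.range r → LinearMap.range r' = LinearMap.range r := by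
  have : IsArtinian A C := inferInstance
  obtain ⟨_, ⟨r, hr, hr0, rfl⟩, hmin⟩ := WellFounded.has_min
    (wellFounded_lt (α := Submodule A C))
    {X | ∃ r, IsRetr GC GM ι r ∧ r ≠ 0 ∧ LinearMap.range r = X}
    (by obtain ⟨r, h1, h2⟩ := hex; exact ⟨_, r, h1, h2, rfl⟩)
  refine ⟨r, hr, hr0, fun r' h1 h2 hle => ?_⟩
  by_contra hne
  exact hmin _ ⟨r', h1, h2, rfl⟩ (lt_of_le_of_ne hle hne)

theorem nil_corner (ι : C →ₗ[A] M) (r : M →ₗ[A] C)
    (hι : ∀ i x, GM.π i (ι x) = ι (GC.π i x))
    (hr : IsRetr GC GM ι r) (hr0 : r ≠ 0)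
    (hmin : ∀ r', IsRetr GC GM ι r' → r' ≠ 0 →
      LinearMap.range r' ≤ LinearMap.range r → LinearMap.range r' = LinearMap.range r)
    (e : Module.End A C) (he : e = r ∘ₗ ι) (ν : Module.End A C)
    (hν : ν ∈ AddSubgroup.closure {v : Module.End A C |
      (∃ d : ℤ, ∀ i x, GC.π (i + d) (v x) = v (GC.π i x)) ∧ e * v = v ∧ v * e = v ∧
        IsNilpotent v}) : IsNilpotent ν := by
  have : IsNoetherianRing A := inferInstance
  have : IsArtinian A C := inferInstance
  have : IsNoetherian A C := inferInstance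
  have her : ∀ x, e (r x) = r x := by intro x; rw [he]; exact hr.2 x
  have hee : e * e = e := by
    ext x
    rw [Module.End.mul_apply]
    conv_lhs => rw [he]
    rw [he]
    exact hr.2 (ι x)
  have he0 : e ≠ 0 := by
    intro h0
    apply hr0
    ext x
    rw [← her, h0]
    rfl
  have heπ : ∀ i x, GC.π i (e x) = e (GC.π i x) := by
    intro i x
    rw [he, LinearMap.comp_apply, LinearMap.comp_apply, hr.1, hι]
  refine levitzki_closure _ ?_ ?_ ν hν
  · rintro v ⟨⟨d, hv⟩, hev, hve, hvn⟩ v' ⟨⟨d', hv'⟩, hev', hve', hvn'⟩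
    have hvv' : ∀ i x, GC.π (i + (d' + d)) ((v * v') x) = (v * v') (GC.π i x) := by
      intro i x
      rw [Module.End.mul_apply, Module.End.mul_apply, ← add_assoc, hv, hv']
    refine ⟨⟨d' + d, hvv'⟩, by rw [← mul_assoc, hev], by rw [mul_assoc, hve'], ?_⟩
    by_cases hd : d' + d = 0
    · by_contra hnn
      have ht : ∀ i x, GC.π i ((v * v') x) = (v * v') (GC.π i x) := by
        intro i x
        have := hvv' i x
        rwa [hd, add_zero] at this
      obtain ⟨n, y, hn, hy, hcomm, hreg⟩ := fitting GC.toGGrp (v * v') ht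
      have htn := pow_hom GC _ ht n
      obtain ⟨m, rfl⟩ : ∃ m, n = m + 1 := ⟨n - 1, by omega⟩
      set t : Module.End A C := v * v' with htdef
      set ε : Module.End A C := y * t ^ (m + 1) with hε
      have hεε : ε * ε = ε := by
        rw [hε]
        calc y * t ^ (m + 1) * (y * t ^ (m + 1)) = y * (t ^ (m + 1) * y * t ^ (m + 1)) := by
              simp only [mul_assoc]
          _ = _ := by rw [hreg]
      have hεπ : ∀ i x, GC.π i (ε x) = ε (GC.π i x) := by
        intro i x
        rw [hε, Module.End.mul_apply, Module.End.mul_apply, hy, htn]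
      have hte : t * e = t := by rw [htdef, mul_assoc, hve']
      have het : e * t = t := by rw [htdef, ← mul_assoc, hev]
      have hεe : ε * e = ε := by rw [hε, pow_succ, mul_assoc, mul_assoc, hte]
      have heε : e * ε = ε := by rw [hcomm, pow_succ', ← mul_assoc, ← mul_assoc, het]
      have hε0 : ε ≠ 0 := by
        intro h0
        apply hnn
        refine ⟨m + 1, ?_⟩
        have : t ^ (m + 1) = t ^ (m + 1) * ε := by rw [hε, ← mul_assoc, hreg]
        rw [this, h0, mul_zero]
      have hr'ι : ∀ x, (ε ∘ₗ r) (ι x) = ε x := by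
        intro x
        have : ε (e x) = ε x := by rw [← Module.End.mul_apply, hεe]
        rw [← this, he]
        rfl
      have h1 : IsRetr GC GM ι (ε ∘ₗ r) := by
        refine ⟨?_, ?_⟩
        · intro i x
          rw [LinearMap.comp_apply, LinearMap.comp_apply, hεπ, hr.1]
        · intro x
          rw [hr'ι, LinearMap.comp_apply, ← Module.End.mul_apply, hεε]
      have h2 : (ε ∘ₗ r : M →ₗ[A] C) ≠ 0 := by
        intro h0
        apply hε0
        ext x
        rw [← hr'ι, h0]
        rfl
      have h3 : LinearMap.range (ε ∘ₗ r) ≤ LinearMap.range r := by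
        rintro _ ⟨x, rfl⟩
        rw [LinearMap.comp_apply, ← heε, Module.End.mul_apply, he]
        exact ⟨_, rfl⟩
      have h4 := hmin _ h1 h2 h3
      have h5 : ε * e = e := by
        ext x
        have : e x ∈ LinearMap.range (ε ∘ₗ r) := by
          rw [h4, he]
          exact ⟨_, rfl⟩
        obtain ⟨z, hz⟩ := this
        rw [Module.End.mul_apply, ← hz, LinearMap.comp_apply, ← Module.End.mul_apply, hεε]
      have h6 : ε = e := by rw [← hεe, h5]
      have h7 : v * (v' * t ^ m * y) = e := by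
        rw [← h6, hcomm, pow_succ', htdef]
        simp only [mul_assoc]
      set z := v' * t ^ m * y with hz
      have h8 : ∀ k : ℕ, v ^ (k + 1) * z ^ (k + 1) = e := by
        intro k
        induction k with
        | zero => simpa using h7
        | succ k ih =>
          calc v ^ (k + 1 + 1) * z ^ (k + 1 + 1) = v * (v ^ (k + 1) * z ^ (k + 1)) * z := by
                rw [pow_succ' v (k + 1), pow_succ z (k + 1)]
                simp only [mul_assoc]
            _ = e := by rw [ih, hve, h7]
      obtain ⟨k, hk⟩ := hvn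
      apply he0
      rw [← h8 k, pow_succ, hk, zero_mul, zero_mul]
    · exact nilp_of_deg GC.toGGrp _ _ hd hvv'
  · rintro v ⟨_, _, _, h⟩
    exact h

theorem step (ι : C →ₗ[A] M) (c : M →ₗ[A] N) (f : C →ₗ[A] N)
    (hι : ∀ i x, GM.π i (ι x) = ι (GC.π i x)) (hcι : ∀ x, c (ι x) = f x)
    (hcore : ∀ i x, GM.π i x = x → c x = 0 → x = 0)
    (w s : ℤ) (hw0 : 0 ≤ w) (hs0 : 0 ≤ s) (hw : ∀ i, w < |i| → ∀ m, GC.π i m = 0)
    (hs : ∀ i, s < |i| → ∀ a, GA.π i a = 0)
    (hsurj : ∀ l, |l| ≤ w + s → ∀ n, ∃ x, GM.π l x = x ∧ c x = n)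
    (hex : ∃ r, IsRetr GC GM ι r ∧ r ≠ 0) :
    ∃ (e : Module.End A C) (g' : N →ₗ[A] C), (∀ i x, GC.π i (e x) = e (GC.π i x)) ∧ e * e = e ∧
      e ≠ 0 ∧ (∀ n, e (g' n) = g' n) ∧ (∀ x, g' (f (e x)) = e x) := by
  classical
  obtain ⟨r, hr, hr0, hmin⟩ := exists_min_retr GC GM ι hex
  obtain ⟨e, he⟩ : ∃ e : Module.End A C, e = r ∘ₗ ι := ⟨_, rfl⟩
  have her : ∀ x, e (r x) = r x := by intro x; rw [he]; exact hr.2 x
  have hee' : ∀ x, e (e x) = e x := by
    intro x
    conv_lhs => rw [he]
    rw [he]
    exact hr.2 (ι x)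
  have hee : e * e = e := by
    ext x
    rw [Module.End.mul_apply, hee']
  have he0 : e ≠ 0 := by
    intro h0
    apply hr0
    ext x
    rw [← her, h0]
    rfl
  have heπ : ∀ i x, GC.π i (e x) = e (GC.π i x) := by
    intro i x
    rw [he, LinearMap.comp_apply, LinearMap.comp_apply, hr.1, hι]
  have huniq : ∀ l x y, GM.π l x = x → GM.π l y = y → c x = c y → x = y := by
    intro l x y hx hy hxy
    rw [← sub_eq_zero]
    exact hcore l _ (by rw [map_sub, hx, hy]) (by rw [map_sub, hxy, sub_self])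
  have hθ' : ∀ l n, ∃ x, |l| ≤ w + s → GM.π l x = x ∧ c x = n := by
    intro l n
    by_cases hl : |l| ≤ w + s
    · obtain ⟨x, hx⟩ := hsurj l hl n
      exact ⟨x, fun _ => hx⟩
    · exact ⟨0, fun h => absurd h hl⟩
  choose θ hθ using hθ'
  have hθadd : ∀ l, |l| ≤ w + s → ∀ n n', θ l (n + n') = θ l n + θ l n' := by
    intro l hl n n'
    refine huniq l _ _ (hθ l _ hl).1 ?_ ?_
    · rw [map_add, (hθ l _ hl).1, (hθ l _ hl).1]
    · rw [map_add, (hθ l _ hl).2, (hθ l _ hl).2, (hθ l _ hl).2]
  have hθsmul : ∀ l k, |l| ≤ w + s → |l - k| ≤ w + s → ∀ a, GA.π k a = a → ∀ n,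
      θ l (a • n) = a • θ (l - k) n := by
    intro l k hl hlk a ha n
    refine huniq l _ _ (hθ l _ hl).1 ?_ ?_
    · rw [GM.smul' _ _ _ _ ha, (hθ (l - k) n hlk).1]
    · rw [map_smul, (hθ l _ hl).2, (hθ (l - k) n hlk).2]
  have hrθ : ∀ l, |l| ≤ w + s → ∀ n, GC.π l (r (θ l n)) = r (θ l n) := by
    intro l hl n
    rw [hr.1, (hθ l n hl).1]
  -- the sum
  let G : N → C := fun n => ∑ l ∈ Finset.Icc (-w) w, r (θ l n)
  have hGπ : ∀ i n, GC.π i (G n) = if |i| ≤ w then r (θ i n) else 0 := by
    intro i n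
    change GC.π i (∑ l ∈ Finset.Icc (-w) w, r (θ l n)) = _
    rw [map_sum]
    have h1 : ∀ l ∈ Finset.Icc (-w) w, GC.π i (r (θ l n)) = if i = l then r (θ l n) else 0 := by
      intro l hl
      rw [Finset.mem_Icc, ← abs_le] at hl
      exact GC.of_self (hrθ l (by omega) n) i
    rw [Finset.sum_congr rfl h1]
    by_cases hi : |i| ≤ w
    · rw [if_pos hi, Finset.sum_ite_eq, if_pos (by rw [Finset.mem_Icc, ← abs_le]; exact hi)]
    · rw [if_neg hi, Finset.sum_ite_eq, if_neg (by rw [Finset.mem_Icc, ← abs_le]; exact hi)]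
  have hGπ' : ∀ i, |i| ≤ w + s → ∀ n, GC.π i (G n) = r (θ i n) := by
    intro i hi n
    rw [hGπ]
    split_ifs with h
    · rfl
    · rw [← hrθ i hi n, hw i (by omega)]
  let g : N →ₗ[A] C :=
    { toFun := G
      map_add' := by
        intro n n'
        change ∑ l ∈ Finset.Icc (-w) w, r (θ l (n + n'))
          = ∑ l ∈ Finset.Icc (-w) w, r (θ l n) + ∑ l ∈ Finset.Icc (-w) w, r (θ l n')
        rw [← Finset.sum_add_distrib]
        refine Finset.sum_congr rfl fun l hl => ?_
        rw [Finset.mem_Icc, ← abs_le] at hl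
        rw [hθadd l (by omega), map_add]
      map_smul' := by
        intro a n
        rw [RingHom.id_apply]
        have hGadd : ∀ n n', G (n + n') = G n + G n' := by
          intro n n'
          change ∑ l ∈ Finset.Icc (-w) w, r (θ l (n + n'))
            = ∑ l ∈ Finset.Icc (-w) w, r (θ l n) + ∑ l ∈ Finset.Icc (-w) w, r (θ l n')
          rw [← Finset.sum_add_distrib]
          refine Finset.sum_congr rfl fun l hl => ?_
          rw [Finset.mem_Icc, ← abs_le] at hl
          rw [hθadd l (by omega), map_add]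
        refine GA.ind (P := fun a => G (a • n) = a • G n) ?_ ?_ ?_ a
        · rw [zero_smul, zero_smul]
          have := hGadd 0 0
          rw [add_zero] at this
          exact left_eq_add.1 this
        · intro a b ha hb
          rw [add_smul, add_smul, hGadd, ha, hb]
        · intro k a ha
          by_cases hk : s < |k|
          · rw [← ha, hs k hk, zero_smul, zero_smul]
            have := hGadd 0 0
            rw [add_zero] at this
            exact left_eq_add.1 this
          · apply GC.ext'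
            intro i
            by_cases hi : |i| ≤ w
            · have hik : |i - k| ≤ w + s := by
                have := abs_sub i k
                omega
              rw [hGπ' i (by omega), hθsmul i k (by omega) hik a ha, map_smul,
                GC.smul' _ _ _ _ ha, hGπ' _ hik]
            · rw [hw i (by omega), hw i (by omega)] }
  have hgG : ∀ n, g n = G n := fun _ => rfl
  have heg : ∀ n, e (g n) = g n := by
    intro n
    rw [hgG]
    change e (∑ l ∈ Finset.Icc (-w) w, r (θ l n)) = ∑ l ∈ Finset.Icc (-w) w, r (θ l n)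
    rw [map_sum]
    exact Finset.sum_congr rfl fun l _ => her _
  -- the endomorphism u
  let u : Module.End A C := g ∘ₗ f ∘ₗ e
  have hu : ∀ x, u x = g (f (e x)) := fun _ => rfl
  have hcomp0 : ∀ x, comp GC GC u 0 x = e x := by
    intro x
    refine GC.ind (P := fun x => comp GC GC u 0 x = e x) ?_ ?_ ?_ x
    · simp
    · intro x y hx hy; rw [map_add, map_add, hx, hy]
    · intro i x hx
      rw [comp_of GC GC u 0 i x hx, add_zero, hu, hgG, hGπ]
      have hex : GC.π i (e x) = e x := by rw [heπ, hx]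
      split_ifs with hi
      · have : θ i (f (e x)) = ι (e x) := by
          refine huniq i _ _ (hθ i _ (by omega)).1 (by rw [hι, hex]) ?_
          rw [(hθ i _ (by omega)).2, hcι]
        rw [this]
        have h2 : r (ι (e x)) = e (e x) :=
          (congrArg (fun F : Module.End A C => F (e x)) he).symm
        rw [h2, hee']
      · rw [← hex, hw i (by omega)]
  have heu : ∀ x, e (u x) = u x := fun x => heg _
  have hue : ∀ x, u (e x) = u x := by intro x; rw [hu, hu, hee']
  have hcomp : ∀ d, d ≠ 0 → comp GC GC u d ∈ {v : Module.End A C |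
      (∃ d : ℤ, ∀ i x, GC.π (i + d) (v x) = v (GC.π i x)) ∧ e * v = v ∧ v * e = v ∧
        IsNilpotent v} := by
    intro d hd
    have : IsNoetherianRing A := inferInstance
    have : IsArtinian A C := inferInstance
    have : IsNoetherian A C := inferInstance
    refine ⟨⟨d, fun i x => comp_hom GC GC u d i x⟩, ?_, ?_,
      nilp_of_deg GC.toGGrp _ d hd fun i x => comp_hom GC GC u d i x⟩
    · ext x
      rw [Module.End.mul_apply]
      refine GC.ind (P := fun x => e (comp GC GC u d x) = comp GC GC u d x) ?_ ?_ ?_ x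
      · simp
      · intro x y hx hy; rw [map_add, map_add, hx, hy]
      · intro i x hx
        rw [comp_of GC GC u d i x hx, ← heπ, heu]
    · ext x
      rw [Module.End.mul_apply]
      refine GC.ind (P := fun x => comp GC GC u d (e x) = comp GC GC u d x) ?_ ?_ ?_ x
      · simp
      · intro x y hx hy; rw [map_add, map_add, map_add, hx, hy]
      · intro i x hx
        rw [comp_of GC GC u d i x hx, comp_of GC GC u d i (e x) (by rw [heπ, hx]), hue]
  obtain ⟨ν, hν⟩ : ∃ ν : Module.End A C,
      ν = ∑ d ∈ (Finset.Icc (-(w + w)) (w + w)).erase 0, comp GC GC u d := ⟨_, rfl⟩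
  have huν : u = e + ν := by
    have h1 := comp_sum GC GC u hw hw
    rw [← Finset.add_sum_erase _ _ (show (0 : ℤ) ∈ Finset.Icc (-(w + w)) (w + w) by
      rw [Finset.mem_Icc]; omega), ← hν] at h1
    rw [← h1]
    congr 1
    ext x
    exact hcomp0 x
  have hνnil : IsNilpotent ν := by
    refine nil_corner GC GM ι r hι hr hr0 hmin e he ν ?_
    rw [hν]
    refine AddSubgroup.sum_mem _ fun d hd => AddSubgroup.subset_closure (hcomp d ?_)
    exact (Finset.mem_erase.1 hd).1
  have heν : e * ν = ν := by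
    have : ν = u - e := by rw [huν]; abel
    rw [this]
    ext x
    rw [Module.End.mul_apply, LinearMap.sub_apply, map_sub, heu, hee']
  have hνe : ν * e = ν := by
    have : ν = u - e := by rw [huν]; abel
    rw [this]
    ext x
    rw [Module.End.mul_apply, LinearMap.sub_apply, LinearMap.sub_apply, hue, hee']
  obtain ⟨U, hU⟩ := hνnil.isUnit_one_add
  have hb1 : (↑U⁻¹ : Module.End A C) * (1 + ν) = 1 := by rw [← hU]; exact U.inv_mul
  have hb2 : (1 + ν) * (↑U⁻¹ : Module.End A C) = 1 := by rw [← hU]; exact U.mul_inv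
  obtain ⟨b, hb⟩ : ∃ b : Module.End A C, b = ↑U⁻¹ := ⟨_, rfl⟩
  rw [← hb] at hb1 hb2
  have hcom : e * (1 + ν) = (1 + ν) * e := by rw [mul_add, add_mul, mul_one, one_mul, heν, hνe]
  have hbe : b * e = e * b := by
    calc b * e = b * e * ((1 + ν) * b) := by rw [hb2, mul_one]
      _ = b * (e * (1 + ν)) * b := by simp only [mul_assoc]
      _ = b * (1 + ν) * (e * b) := by rw [hcom]; simp only [mul_assoc]
      _ = e * b := by rw [hb1, one_mul]
  refine ⟨e, b ∘ₗ g, heπ, hee, he0, ?_, ?_⟩
  · intro n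
    rw [LinearMap.comp_apply, ← Module.End.mul_apply, ← hbe, Module.End.mul_apply, heg]
  · intro x
    rw [LinearMap.comp_apply, ← hu, huν]
    have : (e + ν) x = ((1 + ν) * e) x := by rw [add_mul, one_mul, hνe]
    rw [this, ← Module.End.mul_apply, ← mul_assoc, hb1, one_mul]

end step

end Pool.Agent.X86.GR
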