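import Mathlib
import Pool.Agent.X86.GR.Step

namespace Pool.Agent.X86.GR

open Function

universe u

variable {A : Type u} [Ring A] (GA : GRing A)

/-- Existence of an approximation by finitely generated gradable modules. -/
def GApprox (N : Type u) [AddCommGroup N] [Module A N] : Prop :=
  ∃ (C : Type u) (_ : AddCommGroup C) (_ : Module A C) (_ : Module.Finite A C)
    (_ : GMod GA C) (f : C →ₗ[A] N),
    ∀ (C' : Type u) (_ : AddCommGroup C') (_ : Module A C') (_ : Module.Finite A C')
      (_ : GMod GA C') (g : C' →ₗ[A] N), ∃ h : C' →ₗ[A] C, ∀ x, f (h x) = g x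

/-- The grading of a zero module. -/
def GMod.triv (N : Type u) [AddCommGroup N] [Module A N] [Subsingleton N] : GMod GA N where
  π _ := 0
  fin _ := by simp
  sum _ := Subsingleton.elim _ _
  orth _ _ _ := Subsingleton.elim _ _
  smul _ _ _ _ _ := Subsingleton.elim _ _

theorem main_proj [IsArtinianRing A] (l : ℕ∞) : ∀ (N : Type u) [AddCommGroup N] [Module A N]
    [Module.Finite A N], Module.length A N = l → GApprox GA N → Nonempty (GMod GA N) := by
  induction l using WellFoundedLT.induction with
  | ind l IH =>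
  intro N _ _ _ hl hN
  have : IsNoetherianRing A := inferInstance
  have : IsArtinian A N := inferInstance
  have : IsNoetherian A N := inferInstance
  rcases subsingleton_or_nontrivial N with hsub | hnt
  · exact ⟨GMod.triv GA N⟩
  obtain ⟨C, _, _, _, GC, f, hf⟩ := hN
  have hfsurj : Surjective f := by
    intro n
    obtain ⟨h, hh⟩ := hf A inferInstance inferInstance inferInstance GA.self
      (LinearMap.toSpanSingleton A N n)
    exact ⟨h 1, by rw [hh, LinearMap.toSpanSingleton_apply, one_smul]⟩
  have hf0 : f ≠ 0 := by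
    intro h0
    obtain ⟨n, hn⟩ := exists_ne (0 : N)
    obtain ⟨x, rfl⟩ := hfsurj n
    exact hn (by rw [h0]; rfl)
  obtain ⟨w, hw0, hw⟩ := GC.bdd
  obtain ⟨s, hs0, hs⟩ := bdd_ring GA
  obtain ⟨M, _, _, _, GM, c, ι, hι, hcι, hcore, hsurj⟩ := exists_core GC f (w + s)
  obtain ⟨h, hh⟩ := hf M inferInstance inferInstance inferInstance GM c
  have hex := exists_retr GC GM c f ι hι hcι h hh hf0
  obtain ⟨e, g', heπ, hee, he0, heg, hgfe⟩ :=
    step GC GM ι c f hι hcι hcore w s hw0 hs0 hw hs hsurj hex
  have hee' : ∀ x, e (e x) = e x := fun x => by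
    rw [← Module.End.mul_apply, hee]
  have hgfg : ∀ n, g' (f (g' n)) = g' n := by
    intro n
    conv_lhs => rw [← heg n]
    rw [hgfe, heg]
  -- the summand `X`
  let GX : GMod GA (LinearMap.range e) := GC.ofSurj e.rangeRestrict e.surjective_rangeRestrict (by
    intro x hx i
    apply Subtype.ext
    have h1 : e x = 0 := congrArg Subtype.val hx
    change e (GC.π i x) = 0
    rw [← heπ, h1, map_zero])
  -- the complement `N'`
  let N' : Submodule A N := LinearMap.ker g'
  have hN'top : N' ≠ ⊤ := by
    intro htop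
    apply he0
    ext x
    have : g' (f (e x)) = 0 := by
      have : f (e x) ∈ N' := by rw [htop]; trivial
      exact this
    rw [← hgfe, this]; rfl
  have hlt := Submodule.length_lt hN'top
  rw [hl] at hlt
  have : Module.Finite A N' := inferInstance
  let p : N →ₗ[A] N' := LinearMap.codRestrict N' (LinearMap.id - f ∘ₗ g') (by
    intro n
    change g' (n - f (g' n)) = 0
    rw [map_sub, hgfg, sub_self])
  have hp : ∀ n, (p n : N) = n - f (g' n) := fun _ => rfl
  obtain ⟨GN'⟩ := IH _ hlt N' rfl ⟨C, inferInstance, inferInstance, inferInstance, GC, p ∘ₗ f, by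
    intro C' _ _ _ GC' g
    obtain ⟨k, hk⟩ := hf C' inferInstance inferInstance inferInstance GC' (N'.subtype ∘ₗ g)
    refine ⟨k, fun x => ?_⟩
    apply Subtype.ext
    rw [LinearMap.comp_apply, hp, hk]
    have h1 : g' (g x : N) = 0 := (g x).2
    change (g x : N) - f (g' (g x : N)) = g x
    rw [h1, map_zero, sub_zero]⟩
  let q : (LinearMap.range e × N') →ₗ[A] N :=
    (f ∘ₗ (LinearMap.range e).subtype).coprod N'.subtype
  have hq : ∀ x, q x = f x.1 + x.2 := fun _ => rfl
  have hqs : Surjective q := by
    intro n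
    refine ⟨(⟨g' n, ⟨g' n, heg n⟩⟩, p n), ?_⟩
    rw [hq, hp]
    change f (g' n) + (n - f (g' n)) = n
    abel
  have hqi : ∀ x, q x = 0 → x = 0 := by
    rintro ⟨⟨_, ⟨x, rfl⟩⟩, ⟨n, hn⟩⟩ h0
    rw [hq] at h0
    change f (e x) + n = 0 at h0
    have h1 : g' n = 0 := hn
    have h2 : e x = 0 := by
      have := congrArg g' h0
      rwa [map_add, hgfe, h1, map_zero, add_zero] at this
    have h3 : n = 0 := by rwa [h2, map_zero, zero_add] at h0
    subst h3
    simp [h2]
  exact ⟨(GX.prod GN').ofSurj q hqs (by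
    intro x hx i
    rw [hqi x hx, map_zero, map_zero])⟩

end Pool.Agent.X86.GR
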